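import Pool.Agent.SDX.St

/-!
# SDX, Dg: the subgroups (Lean: helper6)
-/

set_option autoImplicit false

noncomputable section

open Finset Pool.Agent.Helper64.Rho Pool.Agent.SDG Pool.Agent.SSF
open scoped Classical Pointwise

namespace Pool.Agent.SDX

private theorem Dg_le {G : Type} [AddCommGroup G] (m : ℕ) (H : AddSubgroup G) (hH : H ≠ ⊤) :
    Pool.Agent.SNW.bd2 G m ≤ Pool.Agent.SNW.val2 m H := by
  unfold Pool.Agent.SNW.bd2
  exact Nat.sInf_le (Or.inr ⟨H, hH, rfl⟩)

private theorem Dg_card {G Q : Type} [AddCommGroup G] [Finite G] [AddCommGroup Q] (φ : G →+ Q)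
    (hφ : Function.Surjective φ) : Nat.card G = Nat.card Q * Nat.card φ.ker := by
  rw [AddSubgroup.card_eq_card_quotient_mul_card_addSubgroup φ.ker,
    Nat.card_congr (QuotientAddGroup.quotientKerEquivOfSurjective φ hφ).toEquiv]

private theorem Dg_top {G Q : Type} [AddCommGroup G] [Finite G] [AddCommGroup Q] (φ : G →+ Q)
    (hφ : Function.Surjective φ) (hQ : 2 ≤ Nat.card Q) : φ.ker ≠ ⊤ := by
  intro h
  have h1 : ∀ x : Q, x = 0 := by
    intro x
    obtain ⟨g, rfl⟩ := hφ x
    have : g ∈ φ.ker := by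
      rw [h]
      exact AddSubgroup.mem_top _
    exact this
  have h2 : Nat.card Q = 1 := by
    have : Subsingleton Q := ⟨fun x y => by rw [h1 x, h1 y]⟩
    exact Nat.card_of_subsingleton 0
  omega

private theorem Dg_nc : ¬ IsAddCyclic (ZMod 3 × ZMod 3) := by
  intro h
  obtain ⟨g, hg⟩ := h.exists_generator
  have h1 := addOrderOf_eq_card_of_forall_mem_zmultiples hg
  have h2 : addOrderOf g ∣ 3 := by
    apply addOrderOf_dvd_of_nsmul_eq_zero
    have h5 : ∀ x : ZMod 3, 3 • x = 0 := by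
      intro x
      rw [nsmul_eq_mul]
      have h6 : ((3 : ℕ) : ZMod 3) = 0 := ZMod.natCast_self 3
      rw [h6, zero_mul]
    exact Prod.ext (h5 _) (h5 _)
  have h3 : Nat.card (ZMod 3 × ZMod 3) = 9 := by
    rw [Nat.card_prod, Nat.card_zmod]
  rw [h1, h3] at h2
  omega

theorem thm_Dg : St_Dg := by
  intro G _ _ a b m ha hab hb he
  obtain ⟨e⟩ := he
  have hcard : Nat.card G = a * b := by
    rw [Nat.card_congr e.toEquiv, Nat.card_prod, Nat.card_zmod, Nat.card_zmod]
  refine ⟨hcard, ?_, ?_, ?_⟩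
  · intro q hq hq2
    have hsurj : Function.Surjective ((((ZMod.castHom hq (ZMod q)).toAddMonoidHom).comp
        (AddMonoidHom.snd (ZMod a) (ZMod b))).comp e.toAddMonoidHom) := by
      intro z
      obtain ⟨y, hy⟩ := ZMod.castHom_surjective hq z
      refine ⟨e.symm (0, y), ?_⟩
      simpa using hy
    obtain ⟨φ, hφ⟩ : ∃ φ : G →+ ZMod q, Function.Surjective φ := ⟨_, hsurj⟩
    have h1 := Dg_card φ hφ
    rw [hcard, Nat.card_zmod] at h1
    have h2 : Nat.card φ.ker = a * b / q := by
      rw [h1, Nat.mul_div_cancel_left _ (by omega)]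
    have h3 : IsAddCyclic (G ⧸ φ.ker) :=
      isAddCyclic_of_surjective (QuotientAddGroup.quotientKerEquivOfSurjective φ hφ).symm
        (QuotientAddGroup.quotientKerEquivOfSurjective φ hφ).symm.surjective
    have h4 := Dg_le m φ.ker (Dg_top φ hφ (by rw [Nat.card_zmod]; exact hq2))
    unfold Pool.Agent.SNW.val2 at h4
    rw [if_pos h3, h2] at h4
    exact h4
  · intro ha3 h3b hb3
    subst ha3
    have hsurj : Function.Surjective (((AddMonoidHom.prodMap (AddMonoidHom.id (ZMod 3))
        (ZMod.castHom h3b (ZMod 3)).toAddMonoidHom)).comp e.toAddMonoidHom) := by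
      rintro ⟨x, z⟩
      obtain ⟨y, hy⟩ := ZMod.castHom_surjective h3b z
      refine ⟨e.symm (x, y), ?_⟩
      simpa using hy
    obtain ⟨φ, hφ⟩ : ∃ φ : G →+ ZMod 3 × ZMod 3, Function.Surjective φ := ⟨_, hsurj⟩
    have h9 : Nat.card (ZMod 3 × ZMod 3) = 9 := by
      rw [Nat.card_prod, Nat.card_zmod]
    obtain ⟨c, rfl⟩ := h3b
    have h1 := Dg_card φ hφ
    rw [hcard, h9] at h1
    have h2 : Nat.card φ.ker = 3 * c / 3 := by
      rw [Nat.mul_div_cancel_left _ (by norm_num)]
      omega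
    have h2' : Nat.card φ.ker = c := by omega
    have h3 : ¬ IsAddCyclic (G ⧸ φ.ker) := by
      intro h
      apply Dg_nc
      exact isAddCyclic_of_surjective (QuotientAddGroup.quotientKerEquivOfSurjective φ hφ)
        (QuotientAddGroup.quotientKerEquivOfSurjective φ hφ).surjective
    have h4 := Dg_le m φ.ker (Dg_top φ hφ (by rw [h9]; norm_num))
    have h5 : φ.ker ≠ ⊥ := by
      intro h
      rw [h, AddSubgroup.card_bot] at h2'
      omega
    unfold Pool.Agent.SNW.val2 at h4
    rw [if_neg h3, if_neg h5, h2] at h4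
    exact h4
  · unfold Pool.Agent.SNW.bd2
    exact Nat.sInf_le (Or.inl rfl)

end Pool.Agent.SDX
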