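import Pool.Agent.SDX.St

/-!
# [SDX Ds] finite abelian groups with two generators (MP_ec93d3_co)
-/

set_option autoImplicit false

noncomputable section

open Finset Pool.Agent.SSF

namespace Pool.Agent.SDX

private theorem Ds_ker (q e : ℕ) (hq : q.Prime) (he : e ≠ 0) :
    q ≤ Nat.card {y : ZMod (q ^ e) // q • y = 0} := by
  have : NeZero (q ^ e) := ⟨pow_ne_zero _ hq.ne_zero⟩
  obtain ⟨n, rfl⟩ := Nat.exists_eq_succ_of_ne_zero he
  have hinj : Function.Injective (fun c : Fin q =>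
      (⟨((c.val * q ^ n : ℕ) : ZMod (q ^ (n + 1))), by
        rw [nsmul_eq_mul, ← Nat.cast_mul, ZMod.natCast_eq_zero_iff]
        exact ⟨c.val, by ring⟩⟩ : {y : ZMod (q ^ (n + 1)) // q • y = 0})) := by
    intro c d h
    have h1 := congrArg Subtype.val h
    simp only at h1
    rw [ZMod.natCast_eq_natCast_iff'] at h1
    have hpos : 0 < q ^ n := pow_pos hq.pos n
    have e1 : ∀ c : Fin q, c.val * q ^ n < q ^ (n + 1) := by
      intro c
      rw [pow_succ, mul_comm]
      exact (Nat.mul_lt_mul_left hpos).2 c.2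
    rw [Nat.mod_eq_of_lt (e1 c), Nat.mod_eq_of_lt (e1 d)] at h1
    exact Fin.ext (Nat.eq_of_mul_eq_mul_right hpos h1)
  have h := Nat.card_le_card_of_injective _ hinj
  rwa [Nat.card_eq_fintype_card, Fintype.card_fin] at h

private theorem Ds_three {ι : Type} [Fintype ι] (p e : ι → ℕ) (hp : ∀ i, (p i).Prime) (q : ℕ)
    (S : Finset ι) (hS : ∀ i ∈ S, p i = q ∧ e i ≠ 0) :
    q ^ S.card ≤ Nat.card {x : (∀ i, ZMod (p i ^ e i)) // q • x = 0} := by
  classical
  have : ∀ i, NeZero (p i ^ e i) := fun i => ⟨pow_ne_zero _ (hp i).ne_zero⟩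
  have e1 : Nat.card {x : (∀ i, ZMod (p i ^ e i)) // q • x = 0} =
      ∏ i, Nat.card {y : ZMod (p i ^ e i) // q • y = 0} := by
    rw [← Nat.card_pi]
    apply Nat.card_congr
    refine ⟨fun x i => ⟨x.1 i, ?_⟩, fun y => ⟨fun i => (y i).1, ?_⟩, fun x => rfl, fun y => rfl⟩
    · have := congrFun x.2 i
      exact this
    · funext i
      exact (y i).2
  rw [e1]
  have h1 : ∀ i, 1 ≤ Nat.card {y : ZMod (p i ^ e i) // q • y = 0} := by
    intro i
    have : Nonempty {y : ZMod (p i ^ e i) // q • y = 0} := ⟨⟨0, smul_zero _⟩⟩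
    exact Nat.card_pos
  calc q ^ S.card = ∏ i ∈ S, q := by rw [prod_const]
    _ ≤ ∏ i ∈ S, Nat.card {y : ZMod (p i ^ e i) // q • y = 0} := by
        apply prod_le_prod' 
        intro i hi
        obtain ⟨h2, h3⟩ := hS i hi
        have := Ds_ker (p i) (e i) (hp i) h3
        rw [h2] at this ⊢
        exact this
    _ ≤ ∏ i, Nat.card {y : ZMod (p i ^ e i) // q • y = 0} :=
        prod_le_prod_of_subset_of_one_le' (subset_univ S) fun i _ _ => h1 i

private theorem Ds_core (G : Type) [AddCommGroup G] [Finite G]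
    (h2 : ∀ p : ℕ, p.Prime → Nat.card {x : G // p • x = 0} ≤ p ^ 2) (hc : ¬ IsAddCyclic G) :
    ∃ a b : ℕ, 2 ≤ a ∧ a ∣ b ∧ 1 ≤ b ∧ Nonempty (G ≃+ ZMod a × ZMod b) := by
  classical
  obtain ⟨ι, _, p, hp, e, ⟨φ⟩⟩ := AddCommGroup.equiv_directSum_zmod_of_finite G
  have ψ : G ≃+ (∀ i, ZMod (p i ^ e i)) := φ.trans (DirectSum.addEquivProd _)
  -- at most two indices for each prime
  have hS : ∀ q : ℕ, ∀ S : Finset ι, (∀ i ∈ S, p i = q ∧ e i ≠ 0) → S.card ≤ 2 := by
    intro q S hS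
    rcases S.eq_empty_or_nonempty with h | ⟨i0, hi0⟩
    · rw [h]
      simp
    · have hq : q.Prime := by
        rw [← (hS i0 hi0).1]
        exact hp i0
      have h3 := Ds_three p e hp q S hS
      have h4 : Nat.card {x : (∀ i, ZMod (p i ^ e i)) // q • x = 0} = Nat.card {x : G // q • x = 0} := by
        apply Nat.card_congr
        refine (Equiv.subtypeEquiv ψ.toEquiv ?_).symm
        intro x
        show q • x = 0 ↔ q • ψ x = 0
        rw [← map_nsmul, EmbeddingLike.map_eq_zero_iff]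
      rw [h4] at h3
      have h5 := h3.trans (h2 q hq)
      exact (Nat.pow_le_pow_iff_right hq.one_lt).1 h5
  -- the representative with maximal exponent
  have hrep : ∀ i : ι, ∃ j : ι, p j = p i ∧ ∀ k, p k = p i → e k ≤ e j := by
    intro i
    obtain ⟨j, hj, hj'⟩ := (univ.filter fun j => p j = p i).exists_max_image e
      ⟨i, mem_filter.2 ⟨mem_univ _, rfl⟩⟩
    exact ⟨j, (mem_filter.1 hj).2, fun k hk => hj' k (mem_filter.2 ⟨mem_univ _, hk⟩)⟩
  -- depends on the prime only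
  have hrep2 : ∀ q : ℕ, ∃ j : Option ι, ∀ i, p i = q → ∃ j0, j = some j0 ∧ p j0 = q ∧ ∀ k, p k = q → e k ≤ e j0 := by
    intro q
    by_cases h : ∃ i, p i = q
    · obtain ⟨i, hi⟩ := h
      obtain ⟨j, h3, h4⟩ := hrep i
      rw [hi] at h3 h4
      exact ⟨some j, fun i' _ => ⟨j, rfl, h3, h4⟩⟩
    · exact ⟨none, fun i hi => absurd ⟨i, hi⟩ h⟩
  choose R hR using hrep2
  have hr : ∀ i, ∃ j, R (p i) = some j ∧ p j = p i ∧ ∀ k, p k = p i → e k ≤ e j := fun i => hR (p i) i rfl
  choose r hr1 hr2 hr3 using hr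
  have hrr : ∀ i j, p i = p j → r i = r j := by
    intro i j h
    have h3 := hr1 i
    rw [h, hr1 j] at h3
    exact (Option.some.inj h3).symm
  -- the two parts
  let Q : ι → Prop := fun i => e i ≠ 0 ∧ i ≠ r i
  have ρ := (RingEquiv.piEquivPiSubtypeProd Q (fun i => ZMod (p i ^ e i))).toAddEquiv
  have hcA : Pairwise (fun i j : {i // Q i} => Nat.Coprime (p i.1 ^ e i.1) (p j.1 ^ e j.1)) := by
    rintro ⟨i, hi1, hi2⟩ ⟨j, hj1, hj2⟩ hij
    have hne : i ≠ j := fun h => hij (Subtype.ext h)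
    show Nat.Coprime (p i ^ e i) (p j ^ e j)
    by_cases h : p i = p j
    · exfalso
      have h3 := hS (p i) {i, j, r i} (by
        intro k hk
        rw [mem_insert, mem_insert, mem_singleton] at hk
        rcases hk with rfl | rfl | rfl
        · exact ⟨rfl, hi1⟩
        · exact ⟨h.symm, hj1⟩
        · refine ⟨hr2 i, ?_⟩
          have := hr3 i i rfl
          omega)
      rw [card_insert_of_notMem, card_insert_of_notMem, card_singleton] at h3
      · omega
      · rw [mem_singleton, hrr i j h]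
        exact hj2
      · rw [mem_insert, mem_singleton]
        rintro (h4 | h4)
        · exact hne h4
        · exact hi2 h4
    · exact Nat.Coprime.pow _ _ ((Nat.coprime_primes (hp i) (hp j)).2 h)
  have hcB : Pairwise (fun i j : {i // ¬ Q i} => Nat.Coprime (p i.1 ^ e i.1) (p j.1 ^ e j.1)) := by
    rintro ⟨i, hi⟩ ⟨j, hj⟩ hij
    have hne : i ≠ j := fun h => hij (Subtype.ext h)
    show Nat.Coprime (p i ^ e i) (p j ^ e j)
    by_cases h3 : e i = 0
    · rw [h3, pow_zero]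
      exact Nat.coprime_one_left _
    · by_cases h4 : e j = 0
      · rw [h4, pow_zero]
        exact Nat.coprime_one_right _
      · have h5 : i = r i := by
          by_contra h6
          exact hi ⟨h3, h6⟩
        have h6 : j = r j := by
          by_contra h6
          exact hj ⟨h4, h6⟩
        have h7 : p i ≠ p j := by
          intro h8
          apply hne
          rw [h5, h6]
          exact hrr i j h8
        exact Nat.Coprime.pow _ _ ((Nat.coprime_primes (hp i) (hp j)).2 h7)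
  have cA := (ZMod.prodEquivPi (fun i : {i // Q i} => p i.1 ^ e i.1) hcA).toAddEquiv
  have cB := (ZMod.prodEquivPi (fun i : {i // ¬ Q i} => p i.1 ^ e i.1) hcB).toAddEquiv
  have Φ : G ≃+ ZMod (∏ i : {i // Q i}, p i.1 ^ e i.1) × ZMod (∏ i : {i // ¬ Q i}, p i.1 ^ e i.1) :=
    (ψ.trans ρ).trans (AddEquiv.prodCongr cA.symm cB.symm)
  have hpos : ∀ i, 0 < p i ^ e i := fun i => pow_pos (hp i).pos _
  have hapos : 0 < ∏ i : {i // Q i}, p i.1 ^ e i.1 := prod_pos fun i _ => hpos i.1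
  have hbpos : 0 < ∏ i : {i // ¬ Q i}, p i.1 ^ e i.1 := prod_pos fun i _ => hpos i.1
  refine ⟨_, _, ?_, ?_, hbpos, ⟨Φ⟩⟩
  · by_contra h
    have h1 : ∏ i : {i // Q i}, p i.1 ^ e i.1 = 1 := by omega
    rw [h1] at Φ
    apply hc
    have Φ' : ZMod (∏ i : {i // ¬ Q i}, p i.1 ^ e i.1) ≃+ G :=
      (Φ.trans (AddEquiv.uniqueProd : ZMod 1 × ZMod (∏ i : {i // ¬ Q i}, p i.1 ^ e i.1) ≃+ _)).symm
    exact isAddCyclic_of_surjective Φ' Φ'.surjective
  · -- divisibility
    have hrQ : ∀ i, Q i → ¬ Q (r i) := by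
      intro i _ h3
      exact h3.2 (hrr i (r i) (hr2 i).symm)
    have hinj : Function.Injective (fun i : {i // Q i} => (⟨r i.1, hrQ i.1 i.2⟩ : {i // ¬ Q i})) := by
      intro i j h
      by_contra hij
      have h3 : r i.1 = r j.1 := congrArg Subtype.val h
      have h4 : p i.1 = p j.1 := by
        rw [← hr2 i.1, h3, hr2 j.1]
      have h5 : Nat.Coprime (p i.1 ^ e i.1) (p j.1 ^ e j.1) := hcA hij
      have h6 := (Nat.coprime_pow_left_iff (Nat.pos_of_ne_zero i.2.1) _ _).1 h5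
      have h7 := (Nat.coprime_pow_right_iff (Nat.pos_of_ne_zero j.2.1) _ _).1 h6
      exact (Nat.coprime_primes (hp _) (hp _)).1 h7 h4
    calc ∏ i : {i // Q i}, p i.1 ^ e i.1 ∣ ∏ i : {i // Q i}, p (r i.1) ^ e (r i.1) := by
          apply prod_dvd_prod_of_dvd
          intro i _
          rw [hr2 i.1]
          exact pow_dvd_pow _ (hr3 i.1 i.1 rfl)
      _ = ∏ j ∈ univ.image (fun i : {i // Q i} => (⟨r i.1, hrQ i.1 i.2⟩ : {i // ¬ Q i})),
            p j.1 ^ e j.1 := by
          rw [prod_image fun i _ j _ h => hinj h]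
      _ ∣ ∏ i : {i // ¬ Q i}, p i.1 ^ e i.1 := prod_dvd_prod_of_subset _ _ _ (subset_univ _)

theorem thm_Ds : St_Ds := by
  intro G _ _ h2 hc
  exact Ds_core G h2 hc

end Pool.Agent.SDX
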