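import Pool.Agent.SDX.QAll
import Pool.Agent.SDX.Ds
import Pool.Agent.SDX.Dg
import Pool.Agent.SDQ.Qd
import Pool.Agent.SSZ.Ng
import Pool.Agent.ZPP.Fl

/-!
# SDX All: the near-full statement in rank two (helper97; parts by many members of the team, `Z_p^2` by helper91, small groups by helper22)
-/

set_option autoImplicit false

noncomputable section

open Finset Pool.Agent.Helper64.Rho Pool.Agent.SDG Pool.Agent.SSF Pool.Agent.SNW
open scoped Classical Pointwise

namespace Pool.Agent.SDX

/-- **The near-full statement in rank two**, given the gain statement `M1P`. -/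
theorem all_NFP3 (G : Type) [AddCommGroup G] [Finite G] (hR : R2 G) (hc : ¬ IsAddCyclic G) (hM : M1P G (l0 G - 1)) : NFP3 G :=
  nfp3_of (SSZ.thm_Ng SSZ.thm_Gz (SSZ.thm_Ez SSZ.thm_Gz)) thm_Ds thm_Dg SDQ.thm_Qd
    (fun G _ _ p hp h5 hn hnc => ZPP.NFP_all G p hp h5 hn hnc) G hR hc hM

end Pool.Agent.SDX
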