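import Pool.Agent.SDX.St

/-!
# SDX: arithmetic, the pairs without a divisor in the middle

Proof of `St_Da`.
-/

set_option autoImplicit false

noncomputable section

open Finset Pool.Agent.Helper64.Rho Pool.Agent.SDG Pool.Agent.SSF
open scoped Classical Pointwise

namespace Pool.Agent.SDX

/-- A composite number all whose proper divisors are at most `3`. -/
private theorem Da_small {a : ℕ} (ha : 4 ≤ a) (hp : ¬ a.Prime)
    (h : ∀ c, c ∣ a → 2 * c ≤ a → c ≤ 3) : a = 4 ∨ a = 6 ∨ a = 9 := by
  have hr1 : a.minFac.Prime := Nat.minFac_prime (by omega)
  have hr2 : a.minFac ∣ a := Nat.minFac_dvd a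
  have hr3 : a.minFac ^ 2 ≤ a := Nat.minFac_sq_le_self (by omega) hp
  obtain ⟨c, hc⟩ := hr2
  have h2 : 2 ≤ a.minFac := hr1.two_le
  generalize hr : a.minFac = r at *
  have hca : 2 * c ≤ a := by
    rw [hc]
    exact Nat.mul_le_mul_right _ h2
  have hc3 : c ≤ 3 := h c ⟨r, by rw [hc]; ring⟩ hca
  have hrc : r ≤ c := by
    have h3 : r * r ≤ r * c := by rw [← hc, ← sq]; exact hr3
    exact Nat.le_of_mul_le_mul_left h3 (by omega)
  have hr3' : r ≤ 3 := by omega
  interval_cases r <;> interval_cases c <;> omega

/-- Arithmetic. -/
theorem thm_Da : St_Da := by
  intro a b ha hab hb h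
  rcases Nat.lt_or_ge a 4 with ha4 | ha4
  · obtain ⟨c, rfl⟩ := hab
    have hc1 : 1 ≤ c := by
      rcases Nat.eq_zero_or_pos c with h0 | h0
      · subst h0; omega
      · exact h0
    have hcase : c = 1 ∨ c.Prime ∨ (2 ≤ c ∧ ¬ c.Prime) := by
      by_cases hp : c.Prime
      · right; left; exact hp
      · by_cases h1 : c = 1
        · left; exact h1
        · right; right; exact ⟨by omega, hp⟩
    interval_cases a
    · -- `a = 2`
      rcases hcase with hc | hc | ⟨hc2, hc⟩
      · subst hc
        right; right; right; right; right
        simp [Sm]
      · by_cases h5 : 5 ≤ c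
        · right; right; right; left
          exact ⟨rfl, c, hc, h5, rfl⟩
        · right; right; right; right; right
          have : c < 5 := by omega
          interval_cases c
          · exact absurd hc (by norm_num)
          · simp [Sm]
          · simp [Sm]
          · exact absurd hc (by norm_num)
      · right; right; right; right; right
        have hr1 : c.minFac.Prime := Nat.minFac_prime (by omega)
        have hr2 : c.minFac ∣ c := Nat.minFac_dvd c
        have hr3 : c.minFac ^ 2 ≤ c := Nat.minFac_sq_le_self (by omega) hc
        generalize hr : c.minFac = r at hr1 hr2 hr3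
        have h2 : 2 ≤ r := hr1.two_le
        rcases Nat.lt_or_ge r 5 with h5 | h5
        · have hr4 : r ≠ 4 := by
            rintro rfl
            exact absurd hr1 (by norm_num)
          have hr23 : r = 2 ∨ r = 3 := by omega
          rcases hr23 with rfl | rfl
          · have h6 := h 4 (by obtain ⟨d, rfl⟩ := hr2; exact ⟨d, by ring⟩) le_rfl
            have hlt : c < 16 := by omega
            interval_cases c <;> first | (exfalso; omega) | simp [Sm]
          · have h6 := h 6 (by obtain ⟨d, rfl⟩ := hr2; exact ⟨d, by ring⟩) (by norm_num)
            have hlt : c < 36 := by omega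
            have hodd : c % 2 = 1 := by
              by_contra hcon
              have h2c : 2 ∣ c := by omega
              have := Nat.minFac_le_of_dvd le_rfl h2c
              omega
            interval_cases c <;> first | (exfalso; omega) | simp [Sm]
        · exfalso
          have h6 := h r (hr2.mul_left 2) (by omega)
          omega
    · -- `a = 3`
      rcases hcase with hc | hc | ⟨hc2, hc⟩
      · subst hc
        right; right; right; right; right
        simp [Sm]
      · by_cases h5 : 5 ≤ c
        · right; right; right; right; left
          exact ⟨rfl, c, hc, h5, rfl⟩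
        · right; right; right; right; right
          have : c < 5 := by omega
          interval_cases c
          · exact absurd hc (by norm_num)
          · simp [Sm]
          · simp [Sm]
          · exact absurd hc (by norm_num)
      · right; right; right; right; right
        have hr1 : c.minFac.Prime := Nat.minFac_prime (by omega)
        have hr2 : c.minFac ∣ c := Nat.minFac_dvd c
        have hr3 : c.minFac ^ 2 ≤ c := Nat.minFac_sq_le_self (by omega) hc
        generalize hr : c.minFac = r at hr1 hr2 hr3
        have h2 : 2 ≤ r := hr1.two_le
        rcases Nat.lt_or_ge r 5 with h5 | h5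
        · have hr4 : r ≠ 4 := by
            rintro rfl
            exact absurd hr1 (by norm_num)
          have hr23 : r = 2 ∨ r = 3 := by omega
          have h4 := h 4
          have h55 := h 5
          rcases hr23 with rfl | rfl
          · have h6 := h 6 (by obtain ⟨d, rfl⟩ := hr2; exact ⟨d, by ring⟩) (by norm_num)
            have hlt : c < 16 := by omega
            interval_cases c <;> first | (exfalso; omega) | simp [Sm]
          · have h6 := h 9 (by obtain ⟨d, rfl⟩ := hr2; exact ⟨d, by ring⟩) (by norm_num)
            have hlt : c < 36 := by omega
            have hodd : c % 2 = 1 := by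
              by_contra hcon
              have h2c : 2 ∣ c := by omega
              have := Nat.minFac_le_of_dvd le_rfl h2c
              omega
            interval_cases c <;> first | (exfalso; omega) | simp [Sm]
        · exfalso
          have h6 := h r (hr2.mul_left 3) (by omega)
          omega
  · -- `a ≥ 4`
    have h1 := h a hab ha4
    obtain ⟨k, rfl⟩ := hab
    have hk : k < 4 := by
      by_contra hcon
      push Not at hcon
      have h2 : a * (a * 4) ≤ a * (a * k) := Nat.mul_le_mul_left _ (Nat.mul_le_mul_left _ hcon)
      nlinarith
    have hk1 : 1 ≤ k := by
      rcases Nat.eq_zero_or_pos k with h0 | h0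
      · subst h0; omega
      · exact h0
    have hdiv : ∀ c, c ∣ a → 2 * c ≤ a → c ≤ 3 := by
      intro c hc h2c
      by_contra hcon
      push Not at hcon
      have h3 := h c (hc.mul_right k) (by omega)
      have h4 : a * (a * 1) ≤ a * (a * k) := Nat.mul_le_mul_left _ (Nat.mul_le_mul_left _ hk1)
      nlinarith
    interval_cases k
    · by_cases hp : a.Prime
      · left
        refine ⟨by ring, hp, ?_⟩
        rcases Nat.lt_or_ge a 5 with h5 | h5
        · have : a = 4 := by omega
          subst this
          exact absurd hp (by norm_num)
        · exact h5
      · right; right; right; right; right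
        rcases Da_small ha4 hp hdiv with rfl | rfl | rfl <;> simp [Sm]
    · by_cases h5 : 5 ≤ a
      · right; left
        exact ⟨by ring, h5⟩
      · have : a = 4 := by omega
        subst this
        right; right; right; right; right
        simp [Sm]
    · by_cases hp : a.Prime
      · right; right; left
        refine ⟨by ring, ?_, hp⟩
        rcases Nat.lt_or_ge a 5 with h5 | h5
        · have : a = 4 := by omega
          subst this
          exact absurd hp (by norm_num)
        · exact h5
      · right; right; right; right; right
        rcases Da_small ha4 hp hdiv with rfl | rfl | rfl <;> simp [Sm]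

end Pool.Agent.SDX
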