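import Pool.Agent.SDX.St
import Pool.Agent.SDG.Nm1

/-!
# SDX, Db: a divisor `q ≥ 4` of `b` with `4 q ^ 2 ≤ a b`
-/

set_option autoImplicit false

noncomputable section

open Finset Pool.Agent.Helper64.Rho Pool.Agent.SDG Pool.Agent.SSF
open scoped Classical Pointwise

namespace Pool.Agent.SDX

theorem thm_Db : St_Db := by
  intro a b m q _ _ hb1 _ hqb hq4 hq2
  have hcf : cf 2 m = 1 + (m + 1) ^ 2 / 4 := thm_Nm1.2.2.1 m
  by_cases h1 : a * b ≤ cf 2 m
  · exact Or.inl (le_trans h1 (le_max_left _ _))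
  refine Or.inr (Or.inl ⟨q, hqb, by omega, ?_⟩)
  obtain ⟨h, hh⟩ : q ∣ a * b := Dvd.dvd.mul_left hqb a
  have hdiv : a * b / q = h := by
    rw [hh]
    exact Nat.mul_div_cancel_left h (by omega)
  rw [hdiv]
  have hqpos : 0 < q := by omega
  have h4q : 4 * q ≤ h := by
    have h2 : q * (4 * q) ≤ q * h := by
      calc q * (4 * q) = 4 * q ^ 2 := by ring
        _ ≤ a * b := hq2
        _ = q * h := hh
    exact Nat.le_of_mul_le_mul_left h2 hqpos
  have h4h : 4 * h ≤ a * b := by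
    rw [hh]
    exact Nat.mul_le_mul_right h hq4
  have hsq : 4 * (a * b) ≤ h ^ 2 := by
    rw [hh]
    calc 4 * (q * h) = (4 * q) * h := by ring
      _ ≤ h * h := Nat.mul_le_mul_right h h4q
      _ = h ^ 2 := by ring
  have hm : (m + 1) ^ 2 < h ^ 2 := by omega
  have hm2 : m + 1 < h := lt_of_pow_lt_pow_left₀ 2 (Nat.zero_le h) hm
  have hV : V h m = 2 * h := by
    unfold V
    have h3 : m + 1 - h = 0 := by omega
    rw [h3]
    have h4 : max 1 0 = 1 := rfl
    rw [h4]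
    unfold cf
    simp
    ring
  rw [hV]
  have hJ : jj m * (jj m - 1) ≤ cf 2 m := by
    rw [hcf]
    unfold jj
    have h5 : ((m + 1) / 2) * ((m + 1) / 2 - 1) ≤ ((m + 1) / 2) * ((m + 1) / 2) :=
      Nat.mul_le_mul_left _ (Nat.sub_le _ _)
    have h6 : ((m + 1) / 2) * ((m + 1) / 2) ≤ (m + 1) ^ 2 / 4 := by
      rw [Nat.le_div_iff_mul_le (by norm_num)]
      have h7 : 2 * ((m + 1) / 2) ≤ m + 1 := Nat.mul_div_le _ _
      calc (m + 1) / 2 * ((m + 1) / 2) * 4 = (2 * ((m + 1) / 2)) * (2 * ((m + 1) / 2)) := by ring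
        _ ≤ (m + 1) * (m + 1) := Nat.mul_le_mul h7 h7
        _ = (m + 1) ^ 2 := by ring
    omega
  have hl1 : cf 2 m ≤ lw (a * b) m := le_max_left _ _
  have hl2 : a * b - jj m * (jj m - 1) ≤ lw (a * b) m := le_max_right _ _
  omega

end Pool.Agent.SDX
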