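import Pool.Agent.SDX.St
import Pool.Agent.SDG.Nm1

/-!
# SDX, module Dc: `b = 2 a`, `a ≥ 5`
-/

set_option autoImplicit false

noncomputable section

open Finset Pool.Agent.Helper64.Rho Pool.Agent.SDG Pool.Agent.SSF
open scoped Classical Pointwise

namespace Pool.Agent.SDX

private theorem Dc_cf (g r : ℕ) (h1 : 1 ≤ g) (hr : r ≤ g) : cf g r = 1 + r := by
  have h := Pool.Agent.SDG.thm_Nm1.2.1 g 0 r h1 hr
  simp only [Nat.mul_zero, Nat.zero_add, Nat.mul_one, Nat.add_zero] at h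
  omega

/-- half of the group -/
private theorem Dc_half (n m : ℕ) : n ≤ 2 * lw n m := by
  have h1 := Pool.Agent.SDG.thm_Nm1.2.2.1 m
  have h2 : jj m * (jj m - 1) ≤ cf 2 m := by
    rw [h1]
    unfold jj
    obtain ⟨J, hJ⟩ : ∃ J, J = (m + 1) / 2 := ⟨_, rfl⟩
    rw [← hJ]
    have h3 : 2 * J ≤ m + 1 := by omega
    have h4 : J * (J - 1) ≤ J * J := Nat.mul_le_mul_left _ (by omega)
    have h5 : 4 * (J * J) ≤ (m + 1) ^ 2 := by nlinarith
    have h6 : J * J ≤ (m + 1) ^ 2 / 4 := by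
      rw [Nat.le_div_iff_mul_le (by norm_num)]
      omega
    omega
  unfold lw
  rcases le_total (cf 2 m) (n - jj m * (jj m - 1)) with h | h
  · rw [max_eq_right h]
    omega
  · rw [max_eq_left h]
    omega

theorem thm_Dc : St_Dc := by
  intro a m ha hm
  by_cases hn : a * (2 * a) ≤ lw (a * (2 * a)) m
  · exact Or.inl hn
  right
  left
  have hcf : cf 2 m < a * (2 * a) := by
    have : cf 2 m ≤ lw (a * (2 * a)) m := le_max_left _ _
    omega
  have h1 := Pool.Agent.SDG.thm_Nm1.2.2.1 m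
  refine ⟨a, Dvd.intro_left 2 rfl, by omega, ?_⟩
  have hq : a * (2 * a) / a = 2 * a := Nat.mul_div_cancel_left _ (by omega)
  rw [hq]
  have hhalf := Dc_half (a * (2 * a)) m
  by_cases hm2 : m ≤ 2 * a
  · have e : max 1 (m + 1 - 2 * a) = 1 := by
      apply max_eq_left
      omega
    unfold V
    rw [e, Dc_cf (2 * (2 * a)) 1 (by omega) (by omega)]
    nlinarith
  · obtain ⟨s, hs, rfl⟩ : ∃ s, 1 ≤ s ∧ m = 2 * a + s := ⟨m - 2 * a, by omega, by omega⟩
    have hsq : (2 * a + s + 1) ^ 2 < 4 * (a * (2 * a)) := by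
      have h3 := Nat.div_add_mod ((2 * a + s + 1) ^ 2) 4
      have h4 := Nat.mod_lt ((2 * a + s + 1) ^ 2) (show 0 < 4 by norm_num)
      omega
    have hsa : s + 2 ≤ a := by
      by_contra hc
      have h5 : 3 * a ≤ 2 * a + s + 1 := by omega
      have h6 : (3 * a) ^ 2 ≤ (2 * a + s + 1) ^ 2 := Nat.pow_le_pow_left h5 2
      nlinarith
    have e : max 1 (2 * a + s + 1 - 2 * a) = s + 1 := by
      have : 2 * a + s + 1 - 2 * a = s + 1 := by omega
      rw [this]
      exact max_eq_right (by omega)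
    unfold V
    rw [e, Dc_cf (2 * (2 * a)) (s + 1) (by omega) (by omega)]
    refine le_trans ?_ (le_max_left _ _)
    rw [h1]
    have h7 : 2 * a * (1 + (s + 1)) - 1 ≤ (2 * a + s + 1) ^ 2 / 4 := by
      rw [Nat.le_div_iff_mul_le (by norm_num)]
      have h8 : 2 * a * (1 + (s + 1)) * 4 ≤ (2 * a + s + 1) ^ 2 + 4 := by
        obtain ⟨d, rfl⟩ : ∃ d, a = s + 2 + d := ⟨a - (s + 2), by omega⟩
        rcases Nat.eq_zero_or_pos d with rfl | hd
        · have h9 : 3 ≤ s := by omega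
          nlinarith
        · nlinarith
      omega
    omega

end Pool.Agent.SDX
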