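import Pool.Agent.SDX.St
import Pool.Agent.SDG.Nm1

/-!
# SDX, part Dd: `b = 3 a`, `a ≥ 5` (offer 16194, helper81)

`thm_Dd : St_Dd`.
-/

set_option autoImplicit false

noncomputable section

open Finset Pool.Agent.Helper64.Rho Pool.Agent.SDG Pool.Agent.SSF
open scoped Classical Pointwise

namespace Pool.Agent.SDX

/-- **Dd** -/
theorem thm_Dd : St_Dd := by
  intro a m ha hm
  obtain ⟨-, hblk, hcf2, -, -, -⟩ := thm_Nm1
  have hsmall : ∀ g r : ℕ, 1 ≤ g → r ≤ g → cf g r = 1 + r := by
    intro g r hg hr
    have h := hblk g 0 r hg hr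
    simp only [mul_zero, zero_add, mul_one] at h
    omega
  by_cases hbig : a * (3 * a) ≤ cf 2 m
  · exact Or.inl (le_trans hbig (le_max_left _ _))
  · have hlt : cf 2 m < a * (3 * a) := not_le.1 hbig
    refine Or.inr (Or.inl ⟨a, Dvd.intro_left 3 rfl, by omega, ?_⟩)
    have hdiv : a * (3 * a) / a = 3 * a := Nat.mul_div_cancel_left _ (by omega)
    rw [hdiv]
    have hc := hcf2 m
    by_cases hm3 : m ≤ 3 * a
    · have h1 : max 1 (m + 1 - 3 * a) = 1 := by omega
      have hV : V (3 * a) m = 6 * a := by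
        unfold V
        rw [h1, hsmall (2 * (3 * a)) 1 (by omega) (by omega)]
        ring
      rw [hV]
      have hJ : jj m * (jj m - 1) + 1 ≤ cf 2 m := by
        rw [hc]
        have h2 : jj m * (jj m - 1) ≤ jj m * jj m := Nat.mul_le_mul_left _ (by omega)
        have h3 : jj m * jj m ≤ (m + 1) ^ 2 / 4 := by
          rw [Nat.le_div_iff_mul_le (by norm_num)]
          have h4 : 2 * jj m ≤ m + 1 := by
            unfold jj
            omega
          calc jj m * jj m * 4 = (2 * jj m) * (2 * jj m) := by ring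
            _ ≤ (m + 1) * (m + 1) := Nat.mul_le_mul h4 h4
            _ = (m + 1) ^ 2 := by ring
        omega
      have h5 : 12 * a ≤ a * (3 * a) := by nlinarith
      unfold lw
      rcases le_total (6 * a) (cf 2 m) with h | h
      · exact le_trans h (le_max_left _ _)
      · refine le_trans ?_ (le_max_right _ _)
        omega
    · obtain ⟨s, hs⟩ : ∃ s, m = 3 * a + s := ⟨m - 3 * a, by omega⟩
      have hs1 : 1 ≤ s := by omega
      subst hs
      have h1 : max 1 (3 * a + s + 1 - 3 * a) = s + 1 := by omega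
      have hlt2 : (3 * a + s + 1) ^ 2 < 12 * a ^ 2 := by
        rw [hc] at hlt
        have h2 : (3 * a + s + 1) ^ 2 / 4 < a * (3 * a) := by omega
        rw [Nat.div_lt_iff_lt_mul (by norm_num)] at h2
        calc _ < a * (3 * a) * 4 := h2
          _ = _ := by ring
      have hsa : s + 2 ≤ a := by
        by_contra hcon
        have h3 : a ≤ s + 1 := by omega
        have h4 : 4 * a ≤ 3 * a + s + 1 := by omega
        have h5 : (4 * a) ^ 2 ≤ (3 * a + s + 1) ^ 2 := Nat.pow_le_pow_left h4 2
        nlinarith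
      have hV : V (3 * a) (3 * a + s) = 3 * a * (s + 2) := by
        unfold V
        rw [h1, hsmall (2 * (3 * a)) (s + 1) (by omega) (by omega)]
        ring
      rw [hV]
      refine le_trans ?_ (le_max_left _ _)
      rw [hc]
      have h6 : 3 * a * (s + 2) ≤ (3 * a + s + 1) ^ 2 / 4 := by
        rw [Nat.le_div_iff_mul_le (by norm_num)]
        obtain ⟨d, hd⟩ : ∃ d, a = s + 2 + d := ⟨a - (s + 2), by omega⟩
        subst hd
        nlinarith [Nat.zero_le (d * s), Nat.zero_le (d * d), Nat.zero_le (s * s), Nat.zero_le d, Nat.zero_le s]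
      omega

end Pool.Agent.SDX
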