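import Mathlib
import Pool.Agent.SSF.St
import Pool.Agent.SNW.F1

/-!
# SDX: which groups with two generators are critical in the near-full case (MP_ec93d3_co)

Architect helper97.  For a set with `m` elements, aperiodic sums `T` and `|G| ≤ |T| + J (J - 1)`, `J = ⌈m / 2⌉`, the lower bound
`|T| ≥ lw |G| m = max (cf 2 m) (|G| - J (J - 1))` is known (SSF.PR_all).  The bound `bd2 G m` is at most `lw |G| m` for all noncyclic groups of rank two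
except `Z_2 × Z_2p`, `Z_p × Z_p` (`p ≥ 5` prime) and fifteen triples: `St_Dfin`.

Every `St_X` is a statement, its proof is in the docstring.  A module `Pool/Agent/SDX/X.lean` proves `thm_X : St_A → ... → St_X` with exactly the hypotheses
listed after `from`, in this order.  `cf`: SDG.St, closed forms in SDG.St_Nm1 (`Pool.Agent.SDG.all_Nm1`, import Pool.Agent.SDG.All).
`cf g t = 1 + ∑_{i=1}^t ⌈i/g⌉`: `cf g t = 1 + t` for `t ≤ g`; `cf 2 t = 1 + (t+1)^2/4`.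
-/

set_option autoImplicit false

noncomputable section

open Finset Pool.Agent.Helper64.Rho Pool.Agent.SDG Pool.Agent.SSF
open scoped Classical Pointwise

namespace Pool.Agent.SDX

/-- the lower bound that is known in the near-full case -/
def lw (n m : ℕ) : ℕ := max (cf 2 m) (n - jj m * (jj m - 1))

/-- the value of a subgroup of order `h` with cyclic quotient -/
def V (h m : ℕ) : ℕ := h * cf (2 * h) (max 1 (m + 1 - h))

/-- the value of a nonzero subgroup of order `h` with noncyclic quotient -/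
def W (h m : ℕ) : ℕ := 2 * h * cf (2 * h) (max 1 (m - h))

/-- not critical, `G = Z_a × Z_b` -/
def Ok (a b m : ℕ) : Prop :=
  a * b ≤ lw (a * b) m ∨ (∃ q, q ∣ b ∧ 2 ≤ q ∧ V (a * b / q) m ≤ lw (a * b) m) ∨ (a = 3 ∧ 3 ∣ b ∧ b ≠ 3 ∧ W (b / 3) m ≤ lw (a * b) m)

/-- the critical triples -/
def Sp (a b m : ℕ) : Prop :=
  (a, b, m) ∈ ([(2, 4, 4), (3, 3, 4), (2, 8, 6), (4, 4, 5), (4, 4, 6), (3, 6, 7), (3, 9, 7), (2, 16, 10), (4, 8, 10), (3, 27, 13), (9, 9, 13),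
    (3, 33, 15), (3, 39, 15), (3, 39, 16), (3, 51, 19)] : List (ℕ × ℕ × ℕ))

/-- the small groups -/
def Sm (a b : ℕ) : Prop :=
  (a, b) ∈ ([(2, 2), (2, 4), (2, 6), (3, 3), (3, 6), (3, 9), (2, 8), (2, 12), (2, 16), (2, 18), (2, 20), (2, 24), (2, 28), (2, 30), (2, 42), (2, 54),
    (2, 66), (3, 12), (3, 18), (3, 27), (3, 30), (3, 42), (3, 63), (3, 81), (3, 99), (4, 4), (4, 8), (4, 12), (6, 6), (6, 18), (9, 9),
    (9, 27)] : List (ℕ × ℕ))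

/-- **Da** (1.5 h).  Arithmetic.  If every divisor `q ≥ 4` of `b` has `4 q^2 > a b` then `(a, b)` is in one of the families.  (Checked by computer for `a b ≤ 20000`.)
Proof.  `q = b` (if `b ≥ 4`) says nothing; `a ≥ 4`: `q = a`: `4 a > b`, `b ∈ {a, 2a, 3a}`.
`b = a`: all divisors `q < a` of `a` are `≤ 3` (`q ≥ 4` gives `2 q > a`, `q = a`): if `a` is not prime, `a = r c` with `2 ≤ r ≤ c`, `c < a`, so `c ≤ 3`: `a ∈ {4, 6, 9}`.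
`b = 2 a`: `q ≥ 4` divides `2 a`: `2 q^2 > a^2`.  `a` not prime, `a = r c`, `2 ≤ r ≤ c < a`: `c ≤ 3` or `2 c^2 > a^2 = r^2 c^2`, impossible for `r ≥ 2`; so `a ∈ {4, 6, 9}`; `a = 6`: `q = 4` divides 12, `32 > 36` false; `a = 9`: `q = 6`: `72 > 81` false.
`b = 3 a`: `4 q^2 > 3 a^2`: again `c ≤ 3` (`4 c^2 > 3 r^2 c^2` is false): `a ∈ {4, 6, 9}`: these are in the list.
`a = 3`, `b = 3 c`: `4 q^2 > 9 c` for `q | 3 c`, `q ≥ 4`.  `c = 1`, `c` prime, or `c` composite with smallest prime factor `r`, `r^2 ≤ c`: `r ≥ 5`: `q = r`: false.  `r = 2`: `q = 6`: `144 > 9 c`, `c ≤ 15` even; `c = 8`: `q = 4`: `64 > 72` false; `c = 12`: `q = 4`: false.  `r = 3`: `q = 9`: `324 > 9 c`, `c ≤ 35` odd, divisible by 3: `c = 9, 15, 21, 27, 33`;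
`c = 15`: `q = 5`: `100 > 135` false.
`a = 2`, `b = 2 c`: `q^2 > c` for `q | 2 c`, `q ≥ 4`.  Composite `c`: `r ≥ 5` impossible (`q = r`); `r = 2`: `q = 4`: `c < 16`; `r = 3`: `q = 6`: `c < 36`.  (`c ∈ {4, 6, 8, 10, 12, 14, 9, 15, 21, 27, 33}`.)
After the bounds the finitely many pairs can be checked by `interval_cases` / `decide`. -/
def St_Da : Prop :=
  ∀ a b : ℕ, 2 ≤ a → a ∣ b → 1 ≤ b → (∀ q, q ∣ b → 4 ≤ q → a * b < 4 * q ^ 2) →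
    (b = a ∧ a.Prime ∧ 5 ≤ a) ∨ (b = 2 * a ∧ 5 ≤ a) ∨ (b = 3 * a ∧ 5 ≤ a ∧ a.Prime) ∨ (a = 2 ∧ ∃ p : ℕ, p.Prime ∧ 5 ≤ p ∧ b = 2 * p) ∨
    (a = 3 ∧ ∃ p : ℕ, p.Prime ∧ 5 ≤ p ∧ b = 3 * p) ∨ Sm a b

/-- **Db** (0.7 h).  A divisor `q ≥ 4` of `b` with `4 q^2 ≤ n = a b`.
Proof.  If `n ≤ cf 2 m`: first alternative.  Otherwise `(m+1)^2/4 + 1 < n`, so `(m+1)^2 < 4 n`; `h = n / q`, `h^2 ≥ 4 n` (`n^2 ≥ 4 n q^2`), so `m + 1 ≤ h`, `V h m = h cf (2h) 1 = 2 h`, and `2 h ≤ n / 2` (`q ≥ 4`).  `n ≤ 2 lw n m`: `cf 2 m ≥ J (J - 1)` (`J = (m+1)/2`), so `lw n m ≥ max (J (J-1)) (n - J (J-1)) ≥ n / 2`. -/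
def St_Db : Prop := ∀ a b m q : ℕ, 2 ≤ a → a ∣ b → 1 ≤ b → 1 ≤ m → q ∣ b → 4 ≤ q → 4 * q ^ 2 ≤ a * b → Ok a b m

/-- **Dc** (0.8 h).  `b = 2 a`, `a ≥ 5`.
Proof.  `n = 2 a^2`, assume `cf 2 m < n`.  `q = a`, `h = 2 a`.  `m ≤ 2 a`: `V h m = 4 a ≤ n / 2 ≤ lw`.  `m = 2 a + s`, `s ≥ 1`: `(m+1)^2 < 4 n = 8 a^2`, so `s ≤ a - 2` (`(2a + a)^2 = 9 a^2 > 8 a^2`; `s = a - 1` gives `m + 1 = 3 a`).  `V h m = 2 a (s + 2)`, and `2 a (s+2) ≤ 1 + (2a+s+1)^2/4 = cf 2 m`: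
`(2a+s+1)^2/4 = a^2 + a (s+1) + (s+1)^2/4`, so it says `a s + 3 a ≤ 1 + a^2 + (s+1)^2/4`; clear for `s ≤ a - 3`; `s = a - 2`: `a ≤ 1 + (a-1)^2/4`, true for `a ≥ 5` (division rounded down: `a = 5`: `5 ≤ 5`). -/
def St_Dc : Prop := ∀ a m : ℕ, 5 ≤ a → 1 ≤ m → Ok a (2 * a) m

/-- **Dd** (0.6 h).  `b = 3 a`, `a ≥ 5`.
Proof.  `n = 3 a^2`, assume `cf 2 m < n`.  `q = a`, `h = 3 a`.  `m ≤ 3 a`: `V h m = 6 a ≤ n / 2`.  `m = 3 a + s`, `s ≥ 1`: `(m+1)^2 < 12 a^2 < (4 a)^2`, so `s + 1 ≤ a`, `V h m = 3 a (s + 2)`; `4 * 3 a (s+2) = 12 a s + 24 a ≤ 9 a^2 + 6 a (s+1) ≤ (3a+s+1)^2`: `6 s + 18 ≤ 9 a`: from `s ≤ a - 1`: `6 a + 12 ≤ 9 a`. -/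
def St_Dd : Prop := ∀ a m : ℕ, 5 ≤ a → 1 ≤ m → Ok a (3 * a) m

/-- **De** (0.5 h).  `a = 3`, `b = 3 c`, `c ≥ 31`.
Proof.  `n = 9 c`, assume `cf 2 m < n`: `(m+1)^2/4 ≤ 9 c - 2`, `(m+1)^2 ≤ 36 c - 5 < (c+3)^2`... : `(c + 3)^2 - 36 c = c^2 - 30 c + 9 > 0` for `c ≥ 30`, so `m + 1 ≤ c + 2`, `m ≤ c + 1`: `W c m = 2 c cf (2c) 1 = 4 c ≤ n / 2 ≤ lw`. -/
def St_De : Prop := ∀ c m : ℕ, 31 ≤ c → 1 ≤ m → Ok 3 (3 * c) m

/-- **Df** (1.2 h).  The small groups, a finite computation.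
Proof.  For each pair: `a b ≤ cf 2 m` for `m ≥ 36` (`a b ≤ 297`, `cf 2 36 = 343`; `cf 2` is monotone): first alternative.  For `1 ≤ m ≤ 35`: the best subgroup; `cf` can be replaced by the closed form (`SDG.all_Nm1`), e.g. define a computable function for `cf` (block formula) and use `decide` (kernel). -/
def St_Df : Prop :=
  ∀ a b m : ℕ, 1 ≤ m → (Sm a b ∨ (a, b) ∈ ([(3, 15), (3, 21), (3, 33), (3, 39), (3, 51), (3, 57), (3, 69), (3, 87)] : List (ℕ × ℕ))) →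
    Ok a b m ∨ Sp a b m

/-- **Dn** (0.7 h, from Da, Db, Dc, Dd, De, Df).  All pairs.
Proof.  If some divisor `q ≥ 4` of `b` has `4 q^2 ≤ a b`: Db.  Otherwise Da: `b = a` prime: third alternative of the conclusion; `b = 2 a`: Dc; `b = 3 a`: Dd; `a = 2`: second; `a = 3`, `b = 3 p`: `p ≥ 31`: De, otherwise `p ∈ {5, 7, 11, 13, 17, 19, 23, 29}`: Df; `Sm a b`: Df. -/
def St_Dn : Prop :=
  ∀ a b m : ℕ, 2 ≤ a → a ∣ b → 1 ≤ b → 1 ≤ m →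
    Ok a b m ∨ (a = 2 ∧ ∃ p : ℕ, p.Prime ∧ 5 ≤ p ∧ b = 2 * p) ∨ (b = a ∧ a.Prime ∧ 5 ≤ a) ∨ Sp a b m

/-- **Ds** (1.5 h).  Structure.  Noncyclic groups with at most `p^2` elements of order dividing `p` for all primes `p`.
Proof.  E.g.: by Mathlib's structure theorem `G` is a direct sum of cyclic groups of prime power order; for each prime at most two (count `{x | p x = 0}`), collect the largest ones to `Z_b` and the others to `Z_a` (Chinese remainder theorem), `a | b`; `a ≥ 2` because `G` is not cyclic.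
Or: `x` of maximal order `b` = exponent (`AddMonoid.exists_addOrderOf_eq_exponent`), `ZMod b` is injective over itself: the map `⟨x⟩ → ZMod b` extends to `G → ZMod b`, so `G = ⟨x⟩ ⊕ G'`; if `G'` had a prime `p` with more than `p` elements killed by `p` then `G` would have more than `p^2`; so `G'` is cyclic (`IsAddCyclic` criterion: at most `n` elements killed by `n`), of order `a | b`. -/
def St_Ds : Prop :=
  ∀ (G : Type) [AddCommGroup G] [Finite G], R2 G → ¬ IsAddCyclic G → ∃ a b : ℕ, 2 ≤ a ∧ a ∣ b ∧ 1 ≤ b ∧ Nonempty (G ≃+ ZMod a × ZMod b)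

/-- **Dg** (1.3 h).  The subgroups.  (1) `q | b`, `q ≥ 2`: the kernel `H` of `G → ZMod b → ZMod q` has order `a b / q`, `G / H` is cyclic, `H ≠ ⊤`: `bd2 G m ≤ val2 m H = V (a b / q) m` (`Nat.card H` etc.; the infimum in `bd2` is at most each of its members: `Nat.sInf_le`).
(2) `a = 3`, `b = 3 c`, `c ≥ 2`: `H` = kernel of `G → ZMod 3 × ZMod 3` has order `c ≥ 2` (`H ≠ ⊥`), `G / H` is isomorphic to `ZMod 3 × ZMod 3`, not cyclic.  (3) `bd2 G m ≤ |G|`. -/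
def St_Dg : Prop :=
  ∀ (G : Type) [AddCommGroup G] [Finite G] (a b m : ℕ), 2 ≤ a → a ∣ b → 1 ≤ b → Nonempty (G ≃+ ZMod a × ZMod b) →
    Nat.card G = a * b ∧ (∀ q, q ∣ b → 2 ≤ q → Pool.Agent.SNW.bd2 G m ≤ V (a * b / q) m) ∧
    (a = 3 → 3 ∣ b → b ≠ 3 → Pool.Agent.SNW.bd2 G m ≤ W (b / 3) m) ∧ Pool.Agent.SNW.bd2 G m ≤ Nat.card G

/-- **Dfin** (0.5 h, from Dn, Ds, Dg).  The classification. -/
def St_Dfin : Prop :=
  ∀ (G : Type) [AddCommGroup G] [Finite G] (m : ℕ), R2 G → ¬ IsAddCyclic G → 1 ≤ m →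
    Pool.Agent.SNW.bd2 G m ≤ lw (Nat.card G) m ∨ (∃ p : ℕ, p.Prime ∧ 5 ≤ p ∧ Nat.card G = 4 * p) ∨ (∃ p : ℕ, p.Prime ∧ 5 ≤ p ∧ Nat.card G = p ^ 2) ∨
      ∃ a b : ℕ, Sp a b m ∧ Nonempty (G ≃+ ZMod a × ZMod b)

end Pool.Agent.SDX
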