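import Mathlib
import Pool.Agent.SDX.St
import Pool.Agent.SDG.All

/-!
# SDX, module De (MP_ec93d3_co): the pairs `(3, 3 c)` with `c ≥ 31` are not critical

`n = 9 c`; if `cf 2 m < n` then `m ≤ c + 1` and the subgroup of order `c` has value `4 c ≤ n / 2`, which is at most the lower bound.
-/

set_option autoImplicit false

namespace Pool.Agent.SDX

open Pool.Agent.SDG

private lemma De_cf_one (g : ℕ) : cf g 1 = 2 := by
  simp [cf]

private lemma De_half (n m : ℕ) : n ≤ 2 * lw n m := by
  have h3 : cf 2 m = 1 + (m + 1) ^ 2 / 4 := all_Nm1.2.2.1 m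
  have h1 : cf 2 m ≤ lw n m := le_max_left _ _
  have h2 : n - jj m * (jj m - 1) ≤ lw n m := le_max_right _ _
  have h4 : jj m * (jj m - 1) ≤ (m + 1) ^ 2 / 4 := by
    have h5 : 2 * jj m ≤ m + 1 := by
      unfold jj; omega
    have h6 : jj m * (jj m - 1) ≤ jj m * jj m := Nat.mul_le_mul_left _ (Nat.sub_le _ _)
    have h7 : 4 * (jj m * jj m) ≤ (m + 1) ^ 2 := by nlinarith
    omega
  omega

/-- **De**. -/
theorem thm_De : St_De := by
  intro c m hc hm
  have h3 : cf 2 m = 1 + (m + 1) ^ 2 / 4 := all_Nm1.2.2.1 m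
  have h1 : cf 2 m ≤ lw (3 * (3 * c)) m := le_max_left _ _
  by_cases h : 3 * (3 * c) ≤ cf 2 m
  · exact Or.inl (h.trans h1)
  · right; right
    have hsq : (m + 1) ^ 2 < 36 * c := by omega
    have hmc : m + 1 < c + 3 := by
      by_contra hcon
      push Not at hcon
      have h8 : (c + 3) ^ 2 ≤ (m + 1) ^ 2 := Nat.pow_le_pow_left hcon 2
      nlinarith
    have hmax : max 1 (m - c) = 1 := by
      apply max_eq_left; omega
    have hdiv : 3 * c / 3 = c := by omega
    have hhalf := De_half (3 * (3 * c)) m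
    refine ⟨rfl, Dvd.intro c rfl, by omega, ?_⟩
    rw [hdiv]
    unfold W
    rw [hmax, De_cf_one]
    omega

end Pool.Agent.SDX
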