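import Mathlib
import Pool.Agent.SDX.St
import Pool.Agent.SSF.Fin

/-!
# SDX Df: the small groups, a finite computation
-/

set_option autoImplicit false

open Pool.Agent.SDG

namespace Pool.Agent.SDX

/-- computable closed form of the sum `cf` -/
def Df_cf (g t : ℕ) : ℕ := 1 + (g * (t / g) * (t / g + 1) + 2 * (t % g) * (t / g + 1)) / 2

/-- computable form of `lw` -/
def Df_lw (n m : ℕ) : ℕ := max (Df_cf 2 m) (n - (m + 1) / 2 * ((m + 1) / 2 - 1))

/-- computable form of `V` -/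
def Df_V (h m : ℕ) : ℕ := h * Df_cf (2 * h) (max 1 (m + 1 - h))

/-- computable form of `W` -/
def Df_W (h m : ℕ) : ℕ := 2 * h * Df_cf (2 * h) (max 1 (m - h))

theorem Df_cf_eq (g t : ℕ) (hg : 1 ≤ g) : cf g t = Df_cf g t := by
  have h := (Pool.Agent.SDG.all_Nm1).2.1 g (t / g) (t % g) hg (Nat.mod_lt t hg).le
  rw [Nat.div_add_mod] at h
  unfold Df_cf
  have h2 : 2 * (t % g) * (t / g + 1) = 2 * ((t % g) * (t / g + 1)) := by ring
  have h3 : 2 * cf g t = 2 + g * (t / g) * (t / g + 1) + 2 * (t % g) * (t / g + 1) := h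
  omega

theorem Df_lw_eq (n m : ℕ) : lw n m = Df_lw n m := by
  unfold lw Df_lw jj
  rw [Df_cf_eq 2 m (by norm_num)]

theorem Df_V_eq (h m : ℕ) (hh : 1 ≤ h) : V h m = Df_V h m := by
  unfold V Df_V
  rw [Df_cf_eq (2 * h) _ (by omega)]

theorem Df_W_eq (h m : ℕ) (hh : 1 ≤ h) : W h m = Df_W h m := by
  unfold W Df_W
  rw [Df_cf_eq (2 * h) _ (by omega)]

/-- all pairs of the statement -/
def Df_prs : List (ℕ × ℕ) :=
  [(2, 2), (2, 4), (2, 6), (3, 3), (3, 6), (3, 9), (2, 8), (2, 12), (2, 16), (2, 18), (2, 20), (2, 24), (2, 28), (2, 30), (2, 42), (2, 54),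
    (2, 66), (3, 12), (3, 18), (3, 27), (3, 30), (3, 42), (3, 63), (3, 81), (3, 99), (4, 4), (4, 8), (4, 12), (6, 6), (6, 18), (9, 9),
    (9, 27), (3, 15), (3, 21), (3, 33), (3, 39), (3, 51), (3, 57), (3, 69), (3, 87)]

/-- the critical triples -/
def Df_sp : List (ℕ × ℕ × ℕ) :=
  [(2, 4, 4), (3, 3, 4), (2, 8, 6), (4, 4, 5), (4, 4, 6), (3, 6, 7), (3, 9, 7), (2, 16, 10), (4, 8, 10), (3, 27, 13), (9, 9, 13),
    (3, 33, 15), (3, 39, 15), (3, 39, 16), (3, 51, 19)]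

/-- the check for one triple -/
def Df_chk (a b m : ℕ) : Bool :=
  Nat.ble (a * b) (Df_lw (a * b) m) ||
    ((List.range (b + 1)).any fun q => Nat.ble 2 q && (Nat.beq (b % q) 0 && Nat.ble (Df_V (a * b / q) m) (Df_lw (a * b) m))) ||
    (Nat.beq a 3 && (Nat.beq (b % 3) 0 && (! (Nat.beq b 3) && Nat.ble (Df_W (b / 3) m) (Df_lw (a * b) m)))) ||
    (Df_sp.any fun x => Nat.beq x.1 a && (Nat.beq x.2.1 b && Nat.beq x.2.2 m))

theorem Df_all : (Df_prs.all fun x => (List.range 36).all fun m => Nat.beq m 0 || Df_chk x.1 x.2 m) = true := by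
  decide +kernel

theorem Df_chk_sound (a b m : ℕ) (ha : 1 ≤ a) (hb : 1 ≤ b) (h : Df_chk a b m = true) : Ok a b m ∨ Sp a b m := by
  unfold Df_chk at h
  simp only [Bool.or_eq_true, List.any_eq_true, Bool.and_eq_true, Nat.ble_eq, Nat.beq_eq, List.mem_range,
    Bool.not_eq_true'] at h
  rcases h with ((h | ⟨q, hq, h2, hd, hv⟩) | ⟨h3, hd, hn, hw⟩) | ⟨x, hx, h1, h2, h3⟩
  · left; left; rw [Df_lw_eq]; exact h
  · left; right; left
    have hqb : q ∣ b := Nat.dvd_of_mod_eq_zero hd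
    refine ⟨q, hqb, h2, ?_⟩
    have hpos : 1 ≤ a * b / q := by
      refine Nat.div_pos ?_ (by omega)
      exact (Nat.le_of_dvd hb hqb).trans (Nat.le_mul_of_pos_left b ha)
    rw [Df_lw_eq, Df_V_eq _ _ hpos]; exact hv
  · left; right; right
    have hdv : 3 ∣ b := Nat.dvd_of_mod_eq_zero hd
    refine ⟨h3, hdv, ?_, ?_⟩
    · intro hb3
      rw [hb3] at hn
      simp at hn
    · have hpos : 1 ≤ b / 3 := Nat.div_pos (Nat.le_of_dvd hb hdv) (by norm_num)
      rw [Df_lw_eq, Df_W_eq _ _ hpos]; exact hw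
  · right
    unfold Sp
    obtain ⟨x1, x2, x3⟩ := x
    simp only at h1 h2 h3
    subst h1 h2 h3
    exact hx

theorem thm_Df : St_Df := by
  intro a b m hm h
  have hmem : (a, b) ∈ Df_prs := by
    unfold Sm at h
    have hs : Df_prs = ([(2, 2), (2, 4), (2, 6), (3, 3), (3, 6), (3, 9), (2, 8), (2, 12), (2, 16), (2, 18), (2, 20), (2, 24), (2, 28), (2, 30), (2, 42), (2, 54),
    (2, 66), (3, 12), (3, 18), (3, 27), (3, 30), (3, 42), (3, 63), (3, 81), (3, 99), (4, 4), (4, 8), (4, 12), (6, 6), (6, 18), (9, 9),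
    (9, 27)] : List (ℕ × ℕ)) ++ ([(3, 15), (3, 21), (3, 33), (3, 39), (3, 51), (3, 57), (3, 69), (3, 87)] : List (ℕ × ℕ)) := rfl
    rw [hs, List.mem_append]
    exact h
  have hbd : (Df_prs.all fun x => Nat.ble 1 x.1 && (Nat.ble 1 x.2 && Nat.ble (x.1 * x.2) 343)) = true := by
    decide +kernel
  rw [List.all_eq_true] at hbd
  have hb1 := hbd _ hmem
  simp only [Bool.and_eq_true, Nat.ble_eq] at hb1
  obtain ⟨ha, hb, hab⟩ := hb1
  by_cases hm2 : m < 36
  · have h1 := Df_all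
    rw [List.all_eq_true] at h1
    have h2 := h1 _ hmem
    rw [List.all_eq_true] at h2
    have h3 := h2 m (List.mem_range.2 hm2)
    rw [Bool.or_eq_true] at h3
    rcases h3 with h3 | h3
    · rw [Nat.beq_eq] at h3
      omega
    · exact Df_chk_sound a b m ha hb h3
  · left; left
    have h1 : cf 2 36 ≤ cf 2 m := (Pool.Agent.SDG.all_Nm1).2.2.2.1 2 36 m (by omega)
    have h2 : cf 2 36 = 343 := by
      rw [Df_cf_eq 2 36 (by norm_num)]
      decide +kernel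
    have h3 : cf 2 m ≤ lw (a * b) m := le_max_left _ _
    omega

end Pool.Agent.SDX
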