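import Pool.Agent.SDX.St

/-!
# SDX, module Dfin (helper91): the classification
-/

set_option autoImplicit false

noncomputable section

open Finset Pool.Agent.Helper64.Rho Pool.Agent.SDG Pool.Agent.SSF
open scoped Classical Pointwise

namespace Pool.Agent.SDX

theorem thm_Dfin : St_Dn → St_Ds → St_Dg → St_Dfin := by
  intro hDn hDs hDg G _ _ m hR hnc hm
  obtain ⟨a, b, ha, hab, hb, ⟨e⟩⟩ := hDs G hR hnc
  obtain ⟨hc, h1, h2, h3⟩ := hDg G a b m ha hab hb ⟨e⟩
  rcases hDn a b m ha hab hb hm with h | ⟨h2a, p, hp, h5, hbp⟩ | ⟨hba, hp, h5⟩ | h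
  · left
    rw [hc]
    rcases h with h | ⟨q, hq, hq2, hv⟩ | ⟨h3a, h3b, hb3, hw⟩
    · exact (h3.trans_eq hc).trans h
    · exact (h1 q hq hq2).trans hv
    · exact (h2 h3a h3b hb3).trans hw
  · right
    left
    exact ⟨p, hp, h5, by rw [hc, h2a, hbp]; ring⟩
  · right
    right
    left
    exact ⟨a, hp, h5, by rw [hc, hba]; ring⟩
  · right
    right
    right
    exact ⟨a, b, h, ⟨e⟩⟩

end Pool.Agent.SDX
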