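import Pool.Agent.SDX.St

/-!
# SDX / Dn: all pairs (MP_ec93d3_co)
-/

set_option autoImplicit false

noncomputable section

open Finset Pool.Agent.Helper64.Rho Pool.Agent.SDG Pool.Agent.SSF
open scoped Classical Pointwise

namespace Pool.Agent.SDX

/-- the primes from 5 to 30 -/
private lemma Dn_primes (p : ℕ) (hp : p.Prime) (h5 : 5 ≤ p) (h : p < 31) :
    p ∈ ([5, 7, 11, 13, 17, 19, 23, 29] : List ℕ) := by
  interval_cases p <;> first | decide | exact absurd hp (by norm_num)

/-- **Dn**: all pairs -/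
theorem thm_Dn : St_Da → St_Db → St_Dc → St_Dd → St_De → St_Df → St_Dn := by
  intro hDa hDb hDc hDd hDe hDf a b m ha hab hb hm
  by_cases hq : ∃ q, q ∣ b ∧ 4 ≤ q ∧ 4 * q ^ 2 ≤ a * b
  · obtain ⟨q, h1, h2, h3⟩ := hq
    exact Or.inl (hDb a b m q ha hab hb hm h1 h2 h3)
  · have hq' : ∀ q, q ∣ b → 4 ≤ q → a * b < 4 * q ^ 2 := by
      intro q h1 h2
      by_contra h3
      exact hq ⟨q, h1, h2, not_lt.1 h3⟩
    rcases hDa a b ha hab hb hq' with h | h | h | h | h | h
    · exact Or.inr (Or.inr (Or.inl h))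
    · obtain ⟨rfl, h5⟩ := h
      exact Or.inl (hDc a m h5 hm)
    · obtain ⟨rfl, h5, _⟩ := h
      exact Or.inl (hDd a m h5 hm)
    · exact Or.inr (Or.inl h)
    · obtain ⟨rfl, p, hp, h5, rfl⟩ := h
      by_cases h31 : 31 ≤ p
      · exact Or.inl (hDe p m h31 hm)
      · have hmem := Dn_primes p hp h5 (not_le.1 h31)
        have hmem' : ((3 : ℕ), 3 * p) ∈ ([(3, 15), (3, 21), (3, 33), (3, 39), (3, 51), (3, 57), (3, 69), (3, 87)] : List (ℕ × ℕ)) := by
          simp only [List.mem_cons, List.not_mem_nil, or_false] at hmem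
          rcases hmem with rfl | rfl | rfl | rfl | rfl | rfl | rfl | rfl <;> decide
        rcases hDf 3 (3 * p) m hm (Or.inr hmem') with h | h
        · exact Or.inl h
        · exact Or.inr (Or.inr (Or.inr h))
    · rcases hDf a b m hm (Or.inl h) with h' | h'
      · exact Or.inl h'
      · exact Or.inr (Or.inr (Or.inr h'))

end Pool.Agent.SDX
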