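import Pool.Agent.SDX.St
import Pool.Agent.SDQ.St
import Pool.Agent.SSZ.St
import Pool.Agent.SNS.Sh
import Pool.Agent.SNW.Fx
import Pool.Agent.SSF.Fin

/-!
# SDX NFin: the near-full statement `NFP3` for all groups of rank two (helper97), from its parts
-/

set_option autoImplicit false

noncomputable section

open Finset Pool.Agent.Helper64.Rho Pool.Agent.SDG Pool.Agent.SSF Pool.Agent.SNW
open scoped Classical Pointwise

namespace Pool.Agent.SDX

theorem NFin_cap {G : Type} [AddCommGroup G] (A : Finset G) : Cap 2 A (id : G → G) := by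
  intro x
  have h1 : (A.filter fun i => id i = x ∨ id i = -x) ⊆ {x, -x} := by
    intro y hy
    rw [mem_insert, mem_singleton]
    exact (mem_filter.1 hy).2
  exact (card_le_card h1).trans card_le_two

theorem NFin_exp {G : Type} [AddCommGroup G] (a b : ℕ) (hab : a ∣ b) (e : G ≃+ ZMod a × ZMod b) :
    AddMonoid.exponent G = b := by
  rw [AddMonoid.exponent_eq_of_addEquiv e, AddMonoid.exponent_prod, ZMod.exponent, ZMod.exponent]
  exact Nat.lcm_eq_right hab

theorem NFin (hZ : ∀ (G : Type) [AddCommGroup G] [Finite G], SSZ.ZV G → NFP G)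
    (hP2 : ∀ (G : Type) [AddCommGroup G] [Finite G] (p : ℕ), p.Prime → 5 ≤ p → Nat.card G = p ^ 2 → ¬ IsAddCyclic G → NFP G)
    (hD : St_Dfin) (hDg : St_Dg) (h99 : SDQ.St_Q99) (h117 : SDQ.St_Q117) (h153 : SDQ.St_Q153)
    (G : Type) [AddCommGroup G] [Finite G] (hR : R2 G) (hc : ¬ IsAddCyclic G) (hM : M1P G (l0 G - 1)) : NFP3 G := by
  intro A h0 h1 hg hA hlt hnf
  have hPA : SNG.PAG G := fun ι s f a b c => PAG_R2 G hR ι s f a b c
  have hcf : cf 2 A.card ≤ (FS A id).card :=
    hPA G A id (fun i hi h => h0 ((show i = 0 from h) ▸ hi)) (NFin_cap A) hA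
  have hlw : lw (Nat.card G) A.card ≤ (FS A id).card := max_le hcf (by omega)
  rcases hD G A.card hR hc h1 with h | ⟨p, hp, hp5, hn⟩ | ⟨p, hp, hp5, hn⟩ | ⟨a, b, hS, ⟨e⟩⟩
  · exact (bd3_le_bd2 G _).trans (h.trans hlw)
  · exact (bd3_le_bd2 G _).trans (hZ G ⟨hc, p, hp, hp5, hn⟩ A h0 h1 hg hA hlt hnf)
  · exact (bd3_le_bd2 G _).trans (hP2 G p hp hp5 hn hc A h0 h1 hg hA hlt hnf)
  · have hval : ∀ v, bd2 G A.card ≤ v → v ≤ (FS A id).card → bd3 G A.card ≤ (FS A id).card :=
      fun v h2 h3 => (bd3_le_bd2 G _).trans (h2.trans h3)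
    have hex : ∀ n e' v, Nat.card G = n → AddMonoid.exponent G = e' → exl n e' A.card → n - 1 = v →
        v ≤ (FS A id).card → bd3 G A.card ≤ (FS A id).card := by
      intro n e' v h2 h3 h4 h5 h6
      unfold bd3
      rw [h2, h3, if_pos h4]
      omega
    have hSA : SDQ.SA A A.card := ⟨h0, rfl, hA, hg⟩
    simp only [Sp, List.mem_cons, Prod.mk.injEq, List.not_mem_nil, or_false] at hS
    rcases hS with ⟨rfl, rfl, hm⟩ | ⟨rfl, rfl, hm⟩ | ⟨rfl, rfl, hm⟩ | ⟨rfl, rfl, hm⟩ | ⟨rfl, rfl, hm⟩ | ⟨rfl, rfl, hm⟩ |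
      ⟨rfl, rfl, hm⟩ | ⟨rfl, rfl, hm⟩ | ⟨rfl, rfl, hm⟩ | ⟨rfl, rfl, hm⟩ | ⟨rfl, rfl, hm⟩ | ⟨rfl, rfl, hm⟩ | ⟨rfl, rfl, hm⟩ |
      ⟨rfl, rfl, hm⟩ | ⟨rfl, rfl, hm⟩
    all_goals
      obtain ⟨hn, hV, -, hG⟩ := hDg G _ _ A.card (by norm_num) (by norm_num) (by norm_num) ⟨e⟩
      have he := NFin_exp _ _ (by norm_num) e
      rw [hm] at hcf hV hG
    -- (2, 4, 4)
    · have h2 : cf 2 4 = 7 := by decide +kernel
      exact hex 8 4 7 hn he (by unfold exl; omega) rfl (by omega)
    -- (3, 3, 4)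
    · have h2 : cf 2 4 = 7 := by decide +kernel
      have h3 := SNS.no_3_3_4 G e A h0 hA hm
      exact hex 9 3 8 hn he (by unfold exl; omega) rfl (by omega)
    -- (2, 8, 6)
    · have h2 : cf 2 6 = 13 := by decide +kernel
      have h3 := SNS.no_2_8_6 G e A h0 hA hm
      have h4 := hV 8 (by norm_num) (by norm_num)
      have h5 : V (2 * 8 / 8) 6 = 14 := by decide +kernel
      rw [← hm] at h4
      exact hval _ h4 (by rw [hm, h5]; omega)
    -- (4, 4, 5)
    · have h2 : cf 2 5 = 10 := by decide +kernel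
      have h3 := SNS.no_4_4_5 G e A h0 hA hm
      have h4 := hV 4 (by norm_num) (by norm_num)
      have h5 : V (4 * 4 / 4) 5 = 12 := by decide +kernel
      rw [← hm] at h4
      exact hval _ h4 (by rw [hm, h5]; omega)
    -- (4, 4, 6)
    · have h2 : cf 2 6 = 13 := by decide +kernel
      have h3 := SNS.no_4_4_6 G e A h0 hA hm
      exact hex 16 4 15 hn he (by unfold exl; omega) rfl (by omega)
    -- (3, 6, 7)
    · have h2 : cf 2 7 = 17 := by decide +kernel
      exact hex 18 6 17 hn he (by unfold exl; omega) rfl (by omega)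
    -- (3, 9, 7)
    · have h2 : cf 2 7 = 17 := by decide +kernel
      have h3 := SNS.no_27 G hn hc hPA hM A h0 hA hg hm
      have h4 := hV 9 (by norm_num) (by norm_num)
      have h5 : V (3 * 9 / 9) 7 = 18 := by decide +kernel
      rw [← hm] at h4
      exact hval _ h4 (by rw [hm, h5]; omega)
    -- (2, 16, 10)
    · have h2 : cf 2 10 = 31 := by decide +kernel
      have h3 := SNS.no_2_16_10 G e A h0 hA hm
      rw [← hm] at hG
      exact hval _ hG (by rw [hn]; omega)
    -- (4, 8, 10)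
    · have h2 : cf 2 10 = 31 := by decide +kernel
      exact hex 32 8 31 hn he (by unfold exl; omega) rfl (by omega)
    -- (3, 27, 13)
    · have h2 : cf 2 13 = 50 := by decide +kernel
      have h3 := SNS.no_81 G hn hc hPA hM A h0 hA hg hm
      have h4 := hV 27 (by norm_num) (by norm_num)
      have h5 : V (3 * 27 / 27) 13 = 51 := by decide +kernel
      rw [← hm] at h4
      exact hval _ h4 (by rw [hm, h5]; omega)
    -- (9, 9, 13)
    · have h3 := SNS.no_81a G hn (by
        unfold l0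
        rw [hn, he]) hPA hM A h0 hA hg hm
      have h4 := hV 3 (by norm_num) (by norm_num)
      have h5 : V (9 * 9 / 3) 13 = 54 := by decide +kernel
      rw [← hm] at h4
      exact hval _ h4 (by rw [hm, h5]; omega)
    -- (3, 33, 15)
    · rw [hm] at hSA
      have h3 := (h99 G ⟨hR, hc, hn, by norm_num, hM⟩).2 A hSA
      have h4 := hV 3 (by norm_num) (by norm_num)
      have h5 : V (3 * 33 / 3) 15 = 66 := by decide +kernel
      rw [← hm] at h4
      exact hval _ h4 (by rw [hm, h5]; omega)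
    -- (3, 39, 15)
    · rw [hm] at hSA
      have h3 := (h117 G ⟨hR, hc, hn, by norm_num, hM⟩).1 A hSA
      have h4 := hV 39 (by norm_num) (by norm_num)
      have h5 : V (3 * 39 / 39) 15 = 66 := by decide +kernel
      rw [← hm] at h4
      exact hval _ h4 (by rw [hm, h5]; omega)
    -- (3, 39, 16)
    · rw [hm] at hSA
      have h3 := (h117 G ⟨hR, hc, hn, by norm_num, hM⟩).2 A hSA
      have h4 := hV 39 (by norm_num) (by norm_num)
      have h5 : V (3 * 39 / 39) 16 = 75 := by decide +kernel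
      rw [← hm] at h4
      exact hval _ h4 (by rw [hm, h5]; omega)
    -- (3, 51, 19)
    · rw [hm] at hSA
      have h3 := (h153 G ⟨hR, hc, hn, by norm_num, hM⟩).2.2 A hSA
      have h4 := hV 51 (by norm_num) (by norm_num)
      have h5 : V (3 * 51 / 51) 19 = 102 := by decide +kernel
      rw [← hm] at h4
      exact hval _ h4 (by rw [hm, h5]; omega)

end Pool.Agent.SDX
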