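import Pool.Agent.SDX.St
import Pool.Agent.SSZ.Az
import Pool.Agent.SSZ.Bd
import Pool.Agent.SSZ.Bz
import Pool.Agent.SSZ.Cz
import Pool.Agent.SSZ.Dz
import Pool.Agent.SSZ.Ev
import Pool.Agent.SSZ.Ez
import Pool.Agent.SSZ.FinZ
import Pool.Agent.SSZ.Gz
import Pool.Agent.SSZ.Hz
import Pool.Agent.SSZ.Iz
import Pool.Agent.SSZ.K2z
import Pool.Agent.SSZ.K4z
import Pool.Agent.SSZ.Kz
import Pool.Agent.SSZ.Lz
import Pool.Agent.SSZ.NfZ
import Pool.Agent.SSZ.Nz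
import Pool.Agent.SSZ.Od
import Pool.Agent.SNS.Sh

/-!
# SDX ZAll: the near-full statement for the groups of order `4 p` (helper97), from `Ng` and `Ds`
-/

set_option autoImplicit false

noncomputable section

open Finset Pool.Agent.Helper64.Rho Pool.Agent.SDG Pool.Agent.SSF Pool.Agent.SNW
open scoped Classical Pointwise

namespace Pool.Agent.SDX

open Pool.Agent.SSZ

theorem z_Gz : St_Gz := thm_Gz
theorem z_Ez : St_Ez := thm_Ez z_Gz
theorem z_Iz : St_Iz := thm_Iz z_Gz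
theorem z_Hz : St_Hz := thm_Hz z_Gz z_Iz
theorem z_Nz : St_Nz := thm_Nz z_Gz
theorem z_Bd : St_Bd := thm_Bd z_Gz
theorem z_Lz (hNg : St_Ng) : St_Lz := thm_Lz z_Gz z_Ez hNg
theorem z_Cz (hNg : St_Ng) : St_Cz := thm_Cz z_Gz z_Ez (z_Lz hNg) thm_Az thm_Bz thm_Dz thm_K2z thm_K4z hNg
theorem z_Od (hNg : St_Ng) : St_Od := thm_Od z_Gz z_Ez hNg z_Hz
theorem z_Ev (hNg : St_Ng) : St_Ev := thm_Ev z_Gz z_Ez hNg z_Hz z_Nz thm_Kz (z_Cz hNg)
theorem z_FinZ (hNg : St_Ng) : St_FinZ := thm_FinZ (z_Ev hNg) (z_Od hNg)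

theorem z_cap {G : Type} [AddCommGroup G] (A : Finset G) : Cap 2 A (id : G → G) := by
  intro x
  have h1 : (A.filter fun i => id i = x ∨ id i = -x) ⊆ {x, -x} := by
    intro y hy
    rw [mem_insert, mem_singleton]
    exact (mem_filter.1 hy).2
  exact (card_le_card h1).trans card_le_two

theorem z_iso (hDs : St_Ds) (G : Type) [AddCommGroup G] [Finite G] (hZ : ZV G) (c : ℕ) (hc : c = 10 ∨ c = 14)
    (hn : Nat.card G = 2 * c) : Nonempty (G ≃+ ZMod 2 × ZMod c) := by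
  obtain ⟨a, b, ha, hab, hb, ⟨e⟩⟩ := hDs G (z_Gz G hZ).1 hZ.1
  have h1 : Nat.card G = a * b := by
    rw [Nat.card_congr e.toEquiv, Nat.card_prod, Nat.card_zmod, Nat.card_zmod]
  obtain ⟨k, hk⟩ := hab
  have h2 : a * (a * k) = 2 * c := by rw [← hk, ← h1, hn]
  have ha5 : a ≤ 5 := by
    by_contra h
    have hk0 : 1 ≤ k := by
      rcases Nat.eq_zero_or_pos k with h0 | h0
      · subst h0; omega
      · exact h0
    have h3 : 6 * (6 * 1) ≤ a * (a * k) := Nat.mul_le_mul (by omega) (Nat.mul_le_mul (by omega) hk0)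
    omega
  have ha2 : a = 2 := by
    interval_cases a
    · rfl
    · omega
    · omega
    · omega
  subst ha2
  have hbc : b = c := by omega
  subst hbc
  exact ⟨e⟩

theorem z_small (hDs : St_Ds) (G : Type) [AddCommGroup G] [Finite G] (A : Finset G) (hZ : ZV G) (h0 : (0 : G) ∉ A)
    (hA : Aper (FS A id)) (_ : AddSubgroup.closure (A : Set G) = ⊤)
    (h : (A.card = 7 ∧ Nat.card G = 20) ∨ (A.card = 7 ∧ Nat.card G = 28) ∨ (A.card = 8 ∧ Nat.card G = 28)) :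
    cf 2 A.card + 1 ≤ (FS A id).card := by
  have h1 : cf 2 A.card ≤ (FS A id).card :=
    PAG_R2 G (z_Gz G hZ).1 G A id (fun i hi h => h0 ((show i = 0 from h) ▸ hi)) (z_cap A) hA
  have h7 : cf 2 7 = 17 := by decide +kernel
  have h8 : cf 2 8 = 21 := by decide +kernel
  rcases h with ⟨hc, hn⟩ | ⟨hc, hn⟩ | ⟨hc, hn⟩
  · obtain ⟨e⟩ := z_iso hDs G hZ 10 (Or.inl rfl) hn
    have h2 := SNS.no_2_10_7 G e A h0 hA hc
    rw [hc] at h1 ⊢
    omega
  · obtain ⟨e⟩ := z_iso hDs G hZ 14 (Or.inr rfl) hn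
    have h2 := SNS.no_2_14_7 G e A h0 hA hc
    rw [hc] at h1 ⊢
    omega
  · obtain ⟨e⟩ := z_iso hDs G hZ 14 (Or.inr rfl) hn
    have h2 := SNS.no_2_14_8 G e A h0 hA hc
    rw [hc] at h1 ⊢
    omega

/-- the near-full statement for noncyclic groups of order `4 p`, `p ≥ 5` prime -/
theorem z_all (hNg : St_Ng) (hDs : St_Ds) (G : Type) [AddCommGroup G] [Finite G] (hZ : ZV G) : NFP G :=
  thm_NfZ (z_FinZ hNg) z_Bd (fun G _ _ A hZ h0 hA hcl h => z_small hDs G A hZ h0 hA hcl h) G hZ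

end Pool.Agent.SDX
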