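import Pool.Agent.SDX.NFin
import Pool.Agent.SDX.ZAll
import Pool.Agent.SDX.Da
import Pool.Agent.SDX.Db
import Pool.Agent.SDX.Dc
import Pool.Agent.SDX.Dd
import Pool.Agent.SDX.De
import Pool.Agent.SDX.Df
import Pool.Agent.SDX.Dn
import Pool.Agent.SDX.Dfin
import Pool.Agent.SDQ.Q99
import Pool.Agent.SDQ.Q117
import Pool.Agent.SDQ.Q153
import Pool.Agent.SDQ.Qa
import Pool.Agent.SDQ.Qc
import Pool.Agent.SDQ.Qg
import Pool.Agent.SDQ.Qk
import Pool.Agent.SDQ.Qm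
import Pool.Agent.SDQ.Qr
import Pool.Agent.SDQ.Qs
import Pool.Agent.SDQ.Qv

/-!
# SDX QAll: the near-full statement in rank two (helper97), from `Ng`, `Ds`, `Dg`, `Qd` and the groups of order `p ^ 2`
-/

set_option autoImplicit false

noncomputable section

open Finset Pool.Agent.Helper64.Rho Pool.Agent.SDG Pool.Agent.SSF Pool.Agent.SNW
open scoped Classical Pointwise

namespace Pool.Agent.SDX

open Pool.Agent.SDQ

theorem q_Qg : St_Qg := thm_Qg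
theorem q_Qa : St_Qa := thm_Qa q_Qg thm_Qv
theorem q_Qk : St_Qk := thm_Qk q_Qg
theorem q_Qm : St_Qm := thm_Qm q_Qg
theorem q_Qr : St_Qr := thm_Qr q_Qg
theorem q_Qs (hQd : St_Qd) : St_Qs := thm_Qs q_Qg hQd q_Qk
theorem q_Q99 (hQd : St_Qd) : St_Q99 := thm_Q99 hQd q_Qm q_Qr q_Qa thm_Qc
theorem q_Q117 (hQd : St_Qd) : St_Q117 := thm_Q117 hQd q_Qm q_Qr q_Qa thm_Qc (q_Qs hQd)
theorem q_Q153 (hQd : St_Qd) : St_Q153 := thm_Q153 hQd q_Qm q_Qr q_Qa thm_Qc (q_Qs hQd)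

theorem d_Dn : St_Dn := thm_Dn thm_Da thm_Db thm_Dc thm_Dd thm_De thm_Df
theorem d_Dfin (hDs : St_Ds) (hDg : St_Dg) : St_Dfin := thm_Dfin d_Dn hDs hDg

/-- the near-full statement in rank two, from its last parts -/
theorem nfp3_of (hNg : SSZ.St_Ng) (hDs : St_Ds) (hDg : St_Dg) (hQd : St_Qd)
    (hP2 : ∀ (G : Type) [AddCommGroup G] [Finite G] (p : ℕ), p.Prime → 5 ≤ p → Nat.card G = p ^ 2 → ¬ IsAddCyclic G → NFP G)
    (G : Type) [AddCommGroup G] [Finite G] (hR : R2 G) (hc : ¬ IsAddCyclic G) (hM : M1P G (l0 G - 1)) : NFP3 G :=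
  NFin (fun G _ _ hZ => z_all hNg hDs G hZ) hP2 (d_Dfin hDs hDg) hDg (q_Q99 hQd) (q_Q117 hQd) (q_Q153 hQd) G hR hc hM

end Pool.Agent.SDX
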